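import Pool.Agent.Helper35.SHR.Sheet

/-! Project SHR, row TOP2: `be ≥ 1 / z` gives an infinite `F` (adapted from Helper7/SHQ/TOP). -/

set_option autoImplicit false

namespace SHR
open SHQ
open scoped ENNReal

theorem top2_valC {n : ℕ} (o : Om) (b : Fin 3) (j : ℕ) : ∀ v : Fin (n + 1),
    ValC o (b, v) (fix (List.replicate j b)) (ev o) = o.be ^ (v.val + j) := by
  induction j with
  | zero => intro v; rfl
  | succ j ih =>
    intro v
    rw [List.replicate_succ]
    show wt o (b, v) b * ValC o (nx (b, v) b) (fix (List.replicate j b)) (ev o) = _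
    by_cases hv : v.val < n
    · have e1 : wt o (b, v) b = 1 := by
        show (if b = b then (if v.val < n then 1 else o.be) else o.rho v.val) = 1
        rw [if_pos rfl, if_pos hv]
      have e2 : nx (b, v) b = (b, ⟨v.val + 1, by omega⟩) := by
        show (if b = b then (if h : v.val < n then (b, ⟨v.val + 1, by omega⟩) else (b, v))
          else (b, 0)) = _
        rw [if_pos rfl, dif_pos hv]
      rw [e1, e2, ih, one_mul]
      congr 1
      show v.val + 1 + j = v.val + (j + 1)
      omega
    · have e1 : wt o (b, v) b = o.be := by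
        show (if b = b then (if v.val < n then 1 else o.be) else o.rho v.val) = _
        rw [if_pos rfl, if_neg hv]
      have e2 : nx (b, v) b = (b, v) := by
        show (if b = b then (if h : v.val < n then (b, ⟨v.val + 1, by omega⟩) else (b, v))
          else (b, 0)) = _
        rw [if_pos rfl, dif_neg hv]
      rw [e1, e2, ih, ← pow_succ']
      congr 1

theorem st_TOP2 (h : ST_GR) : ST_TOP2 := by
  rintro n z o hz hb ⟨c, hc, hl⟩ g
  obtain ⟨h1, -, -, -, -, -, h7, -⟩ := h z
  have key : ∀ j : ℕ, z ^ 2 * c ≤ z ^ (j + 1 + 1) *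
      G z g (Tr.nil.app (fix (List.replicate (j + 1) (g + 1)))) := by
    intro j
    have e1 := (hl (fix (List.replicate (j + 1) (g + 1)))).trans
      (h1 g (fix (List.replicate (j + 1) (g + 1))))
    have e2 : ValS (n := n) o (fix (List.replicate (j + 1) (g + 1))) (ev o) = o.be ^ j := by
      rw [List.replicate_succ]
      show ValC o ((g + 1, 0) : St n) (fix (List.replicate j (g + 1))) (ev o) = _
      rw [top2_valC]
      congr 1
      show 0 + j = j
      omega
    rw [e2] at e1
    calc z ^ 2 * c = z ^ 2 * c * 1 := (mul_one _).symm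
      _ ≤ z ^ 2 * c * (z * o.be) ^ j := by
        gcongr
        exact one_le_pow₀ hb
      _ = z ^ (j + 1 + 1) * (c * o.be ^ j) := by rw [mul_pow]; ring
      _ ≤ _ := by
        simp only [Tr.app]
        gcongr
  have h2 : ∑' _ : ℕ, z ^ 2 * c = ⊤ :=
    ENNReal.tsum_const_eq_top_of_ne_zero (mul_ne_zero (pow_ne_zero 2 hz) hc)
  have h3 : ∑' _ : ℕ, z ^ 2 * c ≤ ∑' j : ℕ, z ^ (j + 1) *
      G z g (Tr.nil.app (fix (List.replicate j (g + 1)))) :=
    (ENNReal.tsum_le_tsum key).trans
      (ENNReal.tsum_comp_le_tsum_of_injective (f := fun j : ℕ => j + 1)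
        (fun a b hab => Nat.succ_injective hab)
        (fun j => z ^ (j + 1) * G z g (Tr.nil.app (fix (List.replicate j (g + 1))))))
  rw [h2] at h3
  exact top_le_iff.1 (h3.trans (h7 g .nil))

end SHR
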